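import Mathlib

open Set Metric Filter Topology

namespace Pool.Agent.Results.MP_dfd3b8_an.NotSharp

/-- Taylor coefficient at the origin. -/
noncomputable def coeff (n : ℕ) (f : ℂ → ℂ) : ℂ := iteratedDeriv n f 0 / (n.factorial : ℂ)

/-- Normalized holomorphic functions on the unit disc. -/
def ClassA : Set (ℂ → ℂ) :=
  {f | DifferentiableOn ℂ f (ball (0 : ℂ) 1) ∧ f 0 = 0 ∧ deriv f 0 = 1}

/-- The function `g_{α,β}` attached to `f`; the quotients `f(z)/z` and `z f'(z)/f(z)` take the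
value `1` at `z = 0`. -/
noncomputable def gfun (α β : ℝ) (f : ℂ → ℂ) (z : ℂ) : ℂ :=
  (α : ℂ) * (if z = 0 then 1 else f z / z) +
    (β : ℂ) * (if z = 0 then 1 else z * deriv f z / f z) +
    (1 - (α : ℂ) - (β : ℂ)) * (1 + z * deriv (deriv f) z / deriv f z)

/-- The class `M_{α,β}`. -/
def ClassM (α β : ℝ) : Set (ℂ → ℂ) :=
  {f | f ∈ ClassA ∧ (∀ z ∈ ball (0 : ℂ) 1, z ≠ 0 → f z ≠ 0) ∧
    (∀ z ∈ ball (0 : ℂ) 1, deriv f z ≠ 0) ∧
    ∀ z ∈ ball (0 : ℂ) 1, (α + β) / 2 < (gfun α β f z).re}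

/-- The region `R`. -/
def Region : Set (ℝ × ℝ) := {p | p.1 + p.2 < 2 ∧ 5 * p.1 + 4 * p.2 < 6}

/-- The number `μ(α,β)`. -/
noncomputable def mu (α β : ℝ) : ℝ := (2 - α - β) / (6 - 5 * α - 4 * β)

/-- The Fekete-Szegő functional. -/
noncomputable def Phi (f : ℂ → ℂ) (lam : ℂ) : ℂ := coeff 3 f - lam * coeff 2 f ^ 2

/-! ### Taylor coefficients -/

lemma coeff_congr {F G : ℂ → ℂ} (h : F =ᶠ[𝓝 0] G) (n : ℕ) : coeff n F = coeff n G := by
  unfold coeff
  rw [h.iteratedDeriv_eq n]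

lemma coeff_add {F G : ℂ → ℂ} (hF : AnalyticAt ℂ F 0) (hG : AnalyticAt ℂ G 0) (n : ℕ) :
    coeff n (fun z => F z + G z) = coeff n F + coeff n G := by
  unfold coeff
  rw [iteratedDeriv_fun_add hF.contDiffAt hG.contDiffAt, add_div]

lemma coeff_const_mul {F : ℂ → ℂ} (c : ℂ) (n : ℕ) :
    coeff n (fun z => c * F z) = c * coeff n F := by
  unfold coeff
  rw [iteratedDeriv_const_mul_field, mul_div_assoc]

lemma coeff_mul {F G : ℂ → ℂ} (hF : AnalyticAt ℂ F 0) (hG : AnalyticAt ℂ G 0) (n : ℕ) :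
    coeff n (fun z => F z * G z) = ∑ i ∈ Finset.range (n + 1), coeff i F * coeff (n - i) G := by
  unfold coeff
  rw [iteratedDeriv_fun_mul hF.contDiffAt hG.contDiffAt, Finset.sum_div]
  refine Finset.sum_congr rfl fun i hi => ?_
  have hi' : i ≤ n := Nat.lt_succ_iff.mp (Finset.mem_range.mp hi)
  have h1 : (n.factorial : ℂ) = (n.choose i : ℂ) * (i.factorial : ℂ) * ((n - i).factorial : ℂ) := by
    rw [← Nat.choose_mul_factorial_mul_factorial hi']; push_cast; ring
  have h2 : (i.factorial : ℂ) ≠ 0 := by exact_mod_cast i.factorial_ne_zero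
  have h3 : ((n - i).factorial : ℂ) ≠ 0 := by exact_mod_cast (n - i).factorial_ne_zero
  have h4 : (n.choose i : ℂ) ≠ 0 := by exact_mod_cast (Nat.choose_pos hi').ne'
  rw [h1]
  field_simp

lemma coeff_deriv (F : ℂ → ℂ) (n : ℕ) : coeff n (deriv F) = (n + 1 : ℂ) * coeff (n + 1) F := by
  unfold coeff
  rw [← iteratedDeriv_succ', Nat.factorial_succ]
  have h : (n.factorial : ℂ) ≠ 0 := by exact_mod_cast n.factorial_ne_zero
  have h' : (n + 1 : ℂ) ≠ 0 := by exact_mod_cast n.succ_ne_zero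
  push_cast
  field_simp

lemma coeff_zero (F : ℂ → ℂ) : coeff 0 F = F 0 := by simp [coeff]

lemma coeff_id (n : ℕ) : coeff n (fun z : ℂ => z) = if n = 1 then 1 else 0 := by
  unfold coeff
  rw [iteratedDeriv_fun_id_zero]
  split_ifs with h
  · simp [h]
  · simp

lemma coeff_id_mul {F : ℂ → ℂ} (hF : AnalyticAt ℂ F 0) (n : ℕ) :
    coeff (n + 1) (fun z => z * F z) = coeff n F := by
  have hid : AnalyticAt ℂ (fun z : ℂ => z) 0 := analyticAt_id
  rw [coeff_mul hid hF, Finset.sum_eq_single 1]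
  · rw [coeff_id]; simp
  · intro b _ hb
    rw [coeff_id]; simp [hb]
  · intro h
    simp at h

lemma coeff_id_mul_zero {F : ℂ → ℂ} : coeff 0 (fun z => z * F z) = 0 := by
  simp [coeff]

/-! ### The Carathéodory type inequality -/

/-- Cauchy formula for Taylor coefficients as circle averages. -/
lemma avg_div_pow {h : ℂ → ℂ} (hd : DifferentiableOn ℂ h (ball (0 : ℂ) 1)) {r : ℝ} (h0 : 0 < r)
    (h1 : r < 1) (n : ℕ) : Real.circleAverage (fun z => h z / z ^ n) 0 r = coeff n h := by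
  have hd' : DifferentiableOn ℂ h (closedBall (0 : ℂ) r) :=
    hd.mono (closedBall_subset_ball h1)
  have key := hd'.circleIntegral_one_div_sub_center_pow_smul h0 n
  rw [Real.circleAverage_eq_circleIntegral h0.ne']
  have e : (∮ z in C((0 : ℂ), r), (z - 0)⁻¹ • (h z / z ^ n)) =
      ∮ z in C((0 : ℂ), r), (1 / (z - 0) ^ (n + 1)) • h z := by
    apply circleIntegral.integral_congr h0.le
    intro z hz
    have hz0 : z ≠ 0 := by
      rintro rfl
      simp at hz
      exact h0.ne hz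
    simp only [sub_zero, smul_eq_mul]
    field_simp
    ring
  rw [e, key, coeff, smul_smul]
  have hpi : (2 * Real.pi * Complex.I : ℂ) ≠ 0 := Complex.two_pi_I_ne_zero
  rw [smul_eq_mul]
  have h4 : (n.factorial : ℂ) ≠ 0 := by exact_mod_cast n.factorial_ne_zero
  field_simp

/-- averages of `h z * z ^ n` vanish for `n ≥ 1`. -/
lemma avg_mul_pow {h : ℂ → ℂ} (hd : DifferentiableOn ℂ h (ball (0 : ℂ) 1)) {r : ℝ} (h0 : 0 < r)
    (h1 : r < 1) {n : ℕ} (hn : n ≠ 0) : Real.circleAverage (fun z => h z * z ^ n) 0 r = 0 := by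
  have hd' : DifferentiableOn ℂ (fun z => h z * z ^ n) (ball (0 : ℂ) 1) :=
    hd.mul (differentiableOn_id.pow n)
  have := avg_div_pow hd' h0 h1 0
  simpa [coeff_zero, hn] using this

/-- conjugation commutes with circle averages -/
lemma avg_conj {F : ℂ → ℂ} {r : ℝ} (hF : CircleIntegrable F 0 r) :
    Real.circleAverage (fun z => (starRingEnd ℂ) (F z)) 0 r =
      (starRingEnd ℂ) (Real.circleAverage F 0 r) :=
  (Complex.conjCLE : ℂ →L[ℝ] ℂ).circleAverage_comp_comm hF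

lemma norm_avg_le {F : ℂ → ℂ} {r : ℝ} :
    ‖Real.circleAverage F 0 r‖ ≤ Real.circleAverage (fun z => ‖F z‖) 0 r := by
  unfold Real.circleAverage
  rw [norm_smul, smul_eq_mul, Real.norm_of_nonneg (by positivity)]
  exact mul_le_mul_of_nonneg_left
    (intervalIntegral.norm_integral_le_integral_norm (by positivity)) (by positivity)

/-- complex form of the average of a real function -/
lemma avg_ofReal {F : ℂ → ℝ} {r : ℝ} :
    Real.circleAverage (fun z => (F z : ℂ)) 0 r = ((Real.circleAverage F 0 r : ℝ) : ℂ) := by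
  unfold Real.circleAverage
  rw [intervalIntegral.integral_ofReal]
  simp

lemma avg_lin3 {F G H : ℂ → ℂ} {r : ℝ} (a b c : ℂ) (hF : CircleIntegrable F 0 r)
    (hG : CircleIntegrable G 0 r) (hH : CircleIntegrable H 0 r) :
    Real.circleAverage (fun z => a * F z + b * G z + c * H z) 0 r =
      a * Real.circleAverage F 0 r + b * Real.circleAverage G 0 r +
        c * Real.circleAverage H 0 r := by
  have j1 : CircleIntegrable (fun z => a • F z) 0 r := hF.const_smul
  have j2 : CircleIntegrable (fun z => b • G z) 0 r := hG.const_smul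
  have j3 : CircleIntegrable (fun z => c • H z) 0 r := hH.const_smul
  have e1 := Real.circleAverage_fun_add (j1.add j2) j3
  have e2 := Real.circleAverage_fun_add j1 j2
  have e3 : Real.circleAverage (fun z => a • F z) 0 r = a • Real.circleAverage F 0 r :=
    Real.circleAverage_fun_smul
  have e4 : Real.circleAverage (fun z => b • G z) 0 r = b • Real.circleAverage G 0 r :=
    Real.circleAverage_fun_smul
  have e5 : Real.circleAverage (fun z => c • H z) 0 r = c • Real.circleAverage H 0 r :=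
    Real.circleAverage_fun_smul
  rw [e3, e4] at e2
  rw [e5] at e1
  refine Eq.trans (Eq.trans ?_ e1) ?_
  · rfl
  · show Real.circleAverage (fun z => a • F z + b • G z) 0 r + _ = _
    rw [e2]
    rfl

section avg

variable {h : ℂ → ℂ} {κ r : ℝ}

lemma sphere_sub (hr0 : 0 < r) (hr1 : r < 1) : sphere (0 : ℂ) |r| ⊆ ball (0 : ℂ) 1 := by
  intro z hz
  rw [abs_of_pos hr0] at hz
  simp at hz ⊢
  linarith

lemma sphere_ne (hr0 : 0 < r) {z : ℂ} (hz : z ∈ sphere (0 : ℂ) |r|) : z ≠ 0 := by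
  intro h1
  rw [h1, abs_of_pos hr0] at hz
  simp at hz
  exact hr0.ne hz

lemma sphere_conj (hr0 : 0 < r) {z : ℂ} (hz : z ∈ sphere (0 : ℂ) |r|) :
    (r : ℂ) / z = (starRingEnd ℂ) z / r := by
  have hz0 := sphere_ne hr0 hz
  have hr : (r : ℂ) ≠ 0 := by exact_mod_cast hr0.ne'
  rw [div_eq_div_iff hz0 hr, mul_comm ((starRingEnd ℂ) z), Complex.mul_conj,
    Complex.normSq_eq_norm_sq]
  rw [abs_of_pos hr0] at hz
  simp at hz
  rw [hz]; push_cast; ring

/-- average of `(Re h - κ) (r/z)^n` -/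
lemma avg_w (hd : DifferentiableOn ℂ h (ball (0 : ℂ) 1)) (hr0 : 0 < r) (hr1 : r < 1)
    {n : ℕ} (hn : n ≠ 0) :
    Real.circleAverage (fun z => ((((h z).re - κ : ℝ) : ℂ)) * ((r : ℂ) / z) ^ n) 0 r =
      coeff n h * (r : ℂ) ^ n / 2 := by
  have hr : (r : ℂ) ≠ 0 := by exact_mod_cast hr0.ne'
  have hsub := sphere_sub hr0 hr1
  have hcont : ContinuousOn h (sphere (0 : ℂ) |r|) := hd.continuousOn.mono hsub
  have hpow : ContinuousOn (fun z : ℂ => z ^ n) (sphere (0 : ℂ) |r|) := by fun_prop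
  have hinv : ∀ z ∈ sphere (0 : ℂ) |r|, z ^ n ≠ 0 := fun z hz => pow_ne_zero _ (sphere_ne hr0 hz)
  have i1 : CircleIntegrable (fun z => h z / z ^ n) 0 r :=
    (hcont.div hpow hinv).circleIntegrable'
  have i2 : CircleIntegrable (fun z => h z * z ^ n) 0 r := (hcont.mul hpow).circleIntegrable'
  have i2' : CircleIntegrable (fun z => (starRingEnd ℂ) (h z * z ^ n)) 0 r :=
    (Complex.continuous_conj.comp_continuousOn (hcont.mul hpow)).circleIntegrable'
  have i3 : CircleIntegrable (fun z : ℂ => (1 : ℂ) / z ^ n) 0 r :=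
    (continuousOn_const.div hpow hinv).circleIntegrable'
  have e : Set.EqOn (fun z => ((((h z).re - κ : ℝ) : ℂ)) * ((r : ℂ) / z) ^ n)
      (fun z => ((r : ℂ) ^ n / 2) * (h z / z ^ n) +
        (1 / (2 * (r : ℂ) ^ n)) * ((starRingEnd ℂ) (h z * z ^ n)) +
          (-((κ : ℂ) * (r : ℂ) ^ n)) * ((1 : ℂ) / z ^ n)) (sphere (0 : ℂ) |r|) := by
    intro z hz
    have hz0 := sphere_ne hr0 hz
    have hcj := sphere_conj hr0 hz
    have hre : ((((h z).re - κ : ℝ) : ℂ)) = (h z + (starRingEnd ℂ) (h z)) / 2 - κ := by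
      rw [Complex.add_conj]; push_cast; ring
    have e1 : (starRingEnd ℂ) (z ^ n) = ((r : ℂ) / z) ^ n * (r : ℂ) ^ n := by
      rw [hcj, div_pow, map_pow]
      field_simp
    simp only [map_mul, e1, hre]
    have hzn : z ^ n ≠ 0 := pow_ne_zero _ hz0
    have hrn : (r : ℂ) ^ n ≠ 0 := pow_ne_zero _ hr
    rw [div_pow]
    field_simp
    ring
  rw [Real.circleAverage_congr_sphere e]
  rw [avg_lin3 _ _ _ i1 i2' i3,
    avg_conj i2, avg_mul_pow hd hr0 hr1 hn, avg_div_pow hd hr0 hr1 n]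
  have h1 := avg_div_pow (h := fun _ => (1 : ℂ)) (differentiableOn_const _) hr0 hr1 n
  rw [h1]
  have h2 : coeff n (fun _ => (1 : ℂ)) = 0 := by
    unfold coeff
    rw [iteratedDeriv_const]
    simp [hn]
  rw [h2]
  simp only [map_zero, mul_zero, add_zero]
  ring

lemma avg_w_zero (hd : DifferentiableOn ℂ h (ball (0 : ℂ) 1)) (h0 : h 0 = 1) (hr0 : 0 < r)
    (hr1 : r < 1) :
    Real.circleAverage (fun z => ((((h z).re - κ : ℝ) : ℂ))) 0 r = ((1 - κ : ℝ) : ℂ) := by
  have hsub := sphere_sub hr0 hr1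
  have hcont : ContinuousOn h (sphere (0 : ℂ) |r|) := hd.continuousOn.mono hsub
  have i1 : CircleIntegrable h 0 r := hcont.circleIntegrable'
  have i2 : CircleIntegrable (fun z => (starRingEnd ℂ) (h z)) 0 r :=
    (Complex.continuous_conj.comp_continuousOn hcont).circleIntegrable'
  have hh : Real.circleAverage h 0 r = 1 := by
    have := avg_div_pow hd hr0 hr1 0
    simpa [coeff_zero, h0] using this
  have e : (fun z => ((((h z).re - κ : ℝ) : ℂ))) =
      fun z => (1 / 2 : ℂ) * h z + (1 / 2 : ℂ) * (starRingEnd ℂ) (h z) + (-(κ : ℂ)) * 1 := by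
    funext z
    have hre : (((h z).re : ℝ) : ℂ) = (h z + (starRingEnd ℂ) (h z)) / 2 := by
      rw [Complex.add_conj]; push_cast; ring
    push_cast
    rw [hre]
    ring
  rw [e, avg_lin3 _ _ _ i1 i2 (circleIntegrable_const _ _ _),
    avg_conj i1, hh, Real.circleAverage_const]
  simp
  ring

/-- The key inequality: for `h` holomorphic with `h 0 = 1`, `κ < Re h`, the normalized
coefficients `G n = c_n / (2 (1 - κ))` satisfy `|G (2k) - G k ^ 2| ≤ 1 - |G k| ^ 2`
(here with the factors `r ^ n`). -/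
lemma cara_r (hd : DifferentiableOn ℂ h (ball (0 : ℂ) 1)) (h0 : h 0 = 1)
    (hκ : κ < 1) (hre : ∀ z ∈ ball (0 : ℂ) 1, κ < (h z).re) {k : ℕ} (hk : k ≠ 0)
    (hr0 : 0 < r) (hr1 : r < 1) :
    ‖coeff (2 * k) h / (2 * (1 - κ : ℝ)) * (r : ℂ) ^ (2 * k) -
      (coeff k h / (2 * (1 - κ : ℝ)) * (r : ℂ) ^ k) ^ 2‖ ≤
      1 - ‖coeff k h / (2 * (1 - κ : ℝ)) * (r : ℂ) ^ k‖ ^ 2 := by
  set d : ℝ := 1 - κ with hd0
  have hdpos : 0 < d := by linarith
  have hdc : (d : ℂ) ≠ 0 := by exact_mod_cast hdpos.ne'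
  have hr : (r : ℂ) ≠ 0 := by exact_mod_cast hr0.ne'
  set c : ℂ := coeff k h / (2 * (d : ℂ)) * (r : ℂ) ^ k with hc
  have hsub := sphere_sub hr0 hr1
  have hcont : ContinuousOn h (sphere (0 : ℂ) |r|) := hd.continuousOn.mono hsub
  set W : ℂ → ℂ := fun z => ((((h z).re - κ : ℝ) : ℂ)) with hW
  have hWc : ContinuousOn W (sphere (0 : ℂ) |r|) :=
    Complex.continuous_ofReal.comp_continuousOn
      ((Complex.continuous_re.comp_continuousOn hcont).sub continuousOn_const)
  have hEc : ContinuousOn (fun z : ℂ => (r : ℂ) / z) (sphere (0 : ℂ) |r|) :=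
    continuousOn_const.div continuousOn_id fun z hz => sphere_ne hr0 hz
  have iW : CircleIntegrable W 0 r := hWc.circleIntegrable'
  have i1 : CircleIntegrable (fun z => W z * ((r : ℂ) / z) ^ k) 0 r :=
    (hWc.mul (hEc.pow k)).circleIntegrable'
  have i2 : CircleIntegrable (fun z => W z * ((r : ℂ) / z) ^ (2 * k)) 0 r :=
    (hWc.mul (hEc.pow (2 * k))).circleIntegrable'
  have i1' : CircleIntegrable (fun z => (starRingEnd ℂ) (W z * ((r : ℂ) / z) ^ k)) 0 r :=
    (Complex.continuous_conj.comp_continuousOn (hWc.mul (hEc.pow k))).circleIntegrable'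
  have a0 : Real.circleAverage W 0 r = d := avg_w_zero hd h0 hr0 hr1
  have a1 : Real.circleAverage (fun z => W z * ((r : ℂ) / z) ^ k) 0 r = d * c := by
    rw [avg_w hd hr0 hr1 hk, hc]
    field_simp
  have a2 : Real.circleAverage (fun z => W z * ((r : ℂ) / z) ^ (2 * k)) 0 r =
      d * (coeff (2 * k) h / (2 * (d : ℂ)) * (r : ℂ) ^ (2 * k)) := by
    rw [avg_w hd hr0 hr1 (by omega)]
    field_simp
  -- the complex square
  have b1 : Real.circleAverage (fun z => W z * (((r : ℂ) / z) ^ k - c) ^ 2) 0 r =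
      d * (coeff (2 * k) h / (2 * (d : ℂ)) * (r : ℂ) ^ (2 * k) - c ^ 2) := by
    have e : (fun z => W z * (((r : ℂ) / z) ^ k - c) ^ 2) =
        fun z => 1 * (W z * ((r : ℂ) / z) ^ (2 * k)) + (-(2 * c)) * (W z * ((r : ℂ) / z) ^ k) +
          (c ^ 2) * W z := by
      funext z
      rw [mul_comm 2 k, pow_mul]
      ring
    rw [e, avg_lin3 _ _ _ i2 i1 iW, a0, a1, a2]
    ring
  -- the modulus square
  have b2 : ((Real.circleAverage (fun z => ‖W z * (((r : ℂ) / z) ^ k - c) ^ 2‖) 0 r : ℝ) : ℂ) =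
      d * (1 - (‖c‖ : ℂ) ^ 2) := by
    rw [← avg_ofReal]
    have e : Set.EqOn (fun z => ((‖W z * (((r : ℂ) / z) ^ k - c) ^ 2‖ : ℝ) : ℂ))
        (fun z => (1 + (‖c‖ : ℂ) ^ 2) * W z +
          (-((starRingEnd ℂ) c)) * (W z * ((r : ℂ) / z) ^ k) +
          (-c) * (starRingEnd ℂ) (W z * ((r : ℂ) / z) ^ k)) (sphere (0 : ℂ) |r|) := by
      intro z hz
      have hz0 := sphere_ne hr0 hz
      have hpos : 0 < (h z).re - κ := by
        have := hre z (hsub hz)
        linarith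
      have hWn : (‖W z‖ : ℂ) = W z := by
        rw [hW]
        simp only [Complex.norm_real, Real.norm_eq_abs, abs_of_pos hpos]
      have hWs : (starRingEnd ℂ) (W z) = W z := by
        rw [hW]; exact Complex.conj_ofReal _
      have hE : ((r : ℂ) / z) ^ k * (starRingEnd ℂ) (((r : ℂ) / z) ^ k) = 1 := by
        rw [Complex.mul_conj, Complex.normSq_eq_norm_sq, norm_pow, norm_div]
        have : ‖z‖ = r := by
          rw [abs_of_pos hr0] at hz
          simpa using hz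
        rw [this, Complex.norm_real, Real.norm_of_nonneg hr0.le, div_self hr0.ne']
        simp
      have hcc : (‖c‖ : ℂ) ^ 2 = c * (starRingEnd ℂ) c := (Complex.mul_conj' c).symm
      simp only [norm_mul, norm_pow, Complex.ofReal_mul, Complex.ofReal_pow, hWn]
      rw [← Complex.mul_conj' (((r : ℂ) / z) ^ k - c)]
      simp only [map_sub, map_mul, hWs, hcc]
      linear_combination (W z) * hE
    rw [Real.circleAverage_congr_sphere e, avg_lin3 _ _ _ iW i1 i1', avg_conj i1, a0, a1]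
    simp only [map_mul, Complex.conj_ofReal]
    have hcc : (‖c‖ : ℂ) ^ 2 = c * (starRingEnd ℂ) c := (Complex.mul_conj' c).symm
    rw [hcc]
    ring
  have b2' : Real.circleAverage (fun z => ‖W z * (((r : ℂ) / z) ^ k - c) ^ 2‖) 0 r =
      d * (1 - ‖c‖ ^ 2) := by
    exact_mod_cast b2
  have b3 := norm_avg_le (F := fun z => W z * (((r : ℂ) / z) ^ k - c) ^ 2) (r := r)
  rw [b1, b2', norm_mul, Complex.norm_real, Real.norm_of_nonneg hdpos.le] at b3
  exact le_of_mul_le_mul_left b3 hdpos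

/-- The key inequality, limit form. -/
lemma cara (hd : DifferentiableOn ℂ h (ball (0 : ℂ) 1)) (h0 : h 0 = 1)
    (hκ : κ < 1) (hre : ∀ z ∈ ball (0 : ℂ) 1, κ < (h z).re) {k : ℕ} (hk : k ≠ 0) :
    ‖coeff (2 * k) h / (2 * (1 - κ : ℝ)) - (coeff k h / (2 * (1 - κ : ℝ))) ^ 2‖ ≤
      1 - ‖coeff k h / (2 * (1 - κ : ℝ))‖ ^ 2 := by
  have key : ∀ r ∈ Set.Ioo (0 : ℝ) 1,
      ‖coeff (2 * k) h / (2 * (1 - κ : ℝ)) * (r : ℂ) ^ (2 * k) -
        (coeff k h / (2 * (1 - κ : ℝ)) * (r : ℂ) ^ k) ^ 2‖ ≤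
        1 - ‖coeff k h / (2 * (1 - κ : ℝ)) * (r : ℂ) ^ k‖ ^ 2 := fun r hr =>
    cara_r hd h0 hκ hre hk hr.1 hr.2
  have hcl : closure (Set.Ioo (0 : ℝ) 1) = Set.Icc 0 1 := closure_Ioo (by norm_num)
  have hclosed : IsClosed {r : ℝ |
      ‖coeff (2 * k) h / (2 * (1 - κ : ℝ)) * (r : ℂ) ^ (2 * k) -
        (coeff k h / (2 * (1 - κ : ℝ)) * (r : ℂ) ^ k) ^ 2‖ ≤
        1 - ‖coeff k h / (2 * (1 - κ : ℝ)) * (r : ℂ) ^ k‖ ^ 2} := by
    apply isClosed_le <;> fun_prop
  have hmem : (1 : ℝ) ∈ closure (Set.Ioo (0 : ℝ) 1) := by rw [hcl]; simp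
  have := hclosed.closure_subset_iff.mpr key hmem
  simpa using this

end avg

/-! ### The coefficient relations -/

section relations

variable {α β : ℝ} {f : ℂ → ℂ}

lemma dslope_mul (f0 : f 0 = 0) (z : ℂ) : z * dslope f 0 z = f z := by
  have := sub_smul_dslope f 0 z
  simpa [f0] using this

/-- `g` is holomorphic on the disc and satisfies the cleared equation. -/
lemma gfun_eq (hf : f ∈ ClassM α β) {z : ℂ} (hz : z ∈ ball (0 : ℂ) 1) :
    dslope f 0 z ≠ 0 ∧
    gfun α β f z = (α : ℂ) * dslope f 0 z + (β : ℂ) * (deriv f z / dslope f 0 z) +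
      (1 - (α : ℂ) - (β : ℂ)) * (1 + z * deriv (deriv f) z / deriv f z) := by
  obtain ⟨⟨hd, f0, f1⟩, hne, hne', -⟩ := hf
  by_cases hz0 : z = 0
  · subst hz0
    have : dslope f 0 0 = 1 := by rw [dslope_same, f1]
    refine ⟨by rw [this]; exact one_ne_zero, ?_⟩
    simp [gfun, f1]
  · have hm := dslope_mul f0 z
    have hfz := hne z hz hz0
    have hu : dslope f 0 z ≠ 0 := by
      intro h
      rw [h, mul_zero] at hm
      exact hfz hm.symm
    refine ⟨hu, ?_⟩
    have e1 : f z / z = dslope f 0 z := by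
      rw [← hm]; field_simp
    have e2 : z * deriv f z / f z = deriv f z / dslope f 0 z := by
      rw [← hm]; field_simp
    simp only [gfun, hz0, if_false, e1, e2]

lemma diff_deriv (hd : DifferentiableOn ℂ f (ball (0 : ℂ) 1)) :
    DifferentiableOn ℂ (deriv f) (ball (0 : ℂ) 1) := hd.deriv isOpen_ball

lemma diff_dslope (hd : DifferentiableOn ℂ f (ball (0 : ℂ) 1)) :
    DifferentiableOn ℂ (dslope f 0) (ball (0 : ℂ) 1) :=
  (Complex.differentiableOn_dslope (isOpen_ball.mem_nhds (by simp))).mpr hd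

lemma analytic_of_diff {F : ℂ → ℂ} (hd : DifferentiableOn ℂ F (ball (0 : ℂ) 1)) :
    AnalyticAt ℂ F 0 := hd.analyticAt (isOpen_ball.mem_nhds (by simp))

lemma gfun_diff (hf : f ∈ ClassM α β) : DifferentiableOn ℂ (gfun α β f) (ball (0 : ℂ) 1) := by
  have hf' := hf
  obtain ⟨⟨hd, f0, f1⟩, hne, hne', -⟩ := hf'
  have h1 := diff_deriv hd
  have h2 := diff_deriv h1
  have hu := diff_dslope hd
  have : DifferentiableOn ℂ (fun z => (α : ℂ) * dslope f 0 z +
      (β : ℂ) * (deriv f z / dslope f 0 z) +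
      (1 - (α : ℂ) - (β : ℂ)) * (1 + z * deriv (deriv f) z / deriv f z)) (ball (0 : ℂ) 1) := by
    refine ((hu.const_mul _).add ((h1.div hu fun z hz => (gfun_eq hf hz).1).const_mul _)).add ?_
    exact ((differentiableOn_const _).add
      ((differentiableOn_id.mul h2).div h1 hne')).const_mul _
  exact this.congr fun z hz => (gfun_eq hf hz).2

lemma gfun_zero : gfun α β f 0 = 1 := by
  simp [gfun]

/-- the cleared equation -/
lemma cleared (hf : f ∈ ClassM α β) {z : ℂ} (hz : z ∈ ball (0 : ℂ) 1) :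
    gfun α β f z * (dslope f 0 z * deriv f z) =
      (α : ℂ) * (dslope f 0 z * (dslope f 0 z * deriv f z)) +
      (β : ℂ) * (deriv f z * deriv f z) +
      (1 - (α : ℂ) - (β : ℂ)) * (dslope f 0 z * (deriv f z + z * deriv (deriv f) z)) := by
  obtain ⟨hu, hg⟩ := gfun_eq hf hz
  have hf1 := hf.2.2.1 z hz
  rw [hg]
  field_simp

/-- all coefficients of the pieces -/
lemma coeff_dslope (hd : DifferentiableOn ℂ f (ball (0 : ℂ) 1)) (f0 : f 0 = 0) (n : ℕ) :
    coeff n (dslope f 0) = coeff (n + 1) f := by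
  rw [← coeff_id_mul (analytic_of_diff (diff_dslope hd)) n]
  congr 1
  funext z
  exact dslope_mul f0 z

lemma coeff_last (hd : DifferentiableOn ℂ f (ball (0 : ℂ) 1)) (n : ℕ) :
    coeff n (fun z => deriv f z + z * deriv (deriv f) z) = ((n : ℂ) + 1) ^ 2 * coeff (n + 1) f := by
  have h1 := analytic_of_diff (diff_deriv hd)
  have h2 := analytic_of_diff (diff_deriv (diff_deriv hd))
  have h3 : AnalyticAt ℂ (fun z : ℂ => z * deriv (deriv f) z) 0 := analyticAt_id.mul h2
  rw [coeff_add h1 h3, coeff_deriv]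
  rcases n with _ | n
  · rw [coeff_id_mul_zero]; simp
  · rw [coeff_id_mul h2, coeff_deriv, coeff_deriv]
    push_cast
    ring

/-- the coefficient identity coming from the cleared equation -/
lemma coeff_identity (hf : f ∈ ClassM α β) (n : ℕ) :
    ∑ i ∈ Finset.range (n + 1), coeff i (gfun α β f) *
        (∑ j ∈ Finset.range (n - i + 1), coeff (j + 1) f *
          (((n - i - j : ℕ) : ℂ) + 1) * coeff (n - i - j + 1) f) =
      (α : ℂ) * (∑ i ∈ Finset.range (n + 1), coeff (i + 1) f *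
        (∑ j ∈ Finset.range (n - i + 1), coeff (j + 1) f *
          (((n - i - j : ℕ) : ℂ) + 1) * coeff (n - i - j + 1) f)) +
      (β : ℂ) * (∑ i ∈ Finset.range (n + 1), ((i : ℂ) + 1) * coeff (i + 1) f *
          (((n - i : ℕ) : ℂ) + 1) * coeff (n - i + 1) f) +
      (1 - (α : ℂ) - (β : ℂ)) * (∑ i ∈ Finset.range (n + 1), coeff (i + 1) f *
          (((n - i : ℕ) : ℂ) + 1) ^ 2 * coeff (n - i + 1) f) := by
  have hf' := hf
  obtain ⟨⟨hd, f0, f1⟩, hne, hne', -⟩ := hf'
  have a1 := analytic_of_diff (diff_deriv hd)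
  have a2 := analytic_of_diff (diff_deriv (diff_deriv hd))
  have au := analytic_of_diff (diff_dslope hd)
  have ag := analytic_of_diff (gfun_diff hf)
  have auf : AnalyticAt ℂ (fun z => dslope f 0 z * deriv f z) 0 := au.mul a1
  have auuf : AnalyticAt ℂ (fun z => dslope f 0 z * (dslope f 0 z * deriv f z)) 0 := au.mul auf
  have aff : AnalyticAt ℂ (fun z => deriv f z * deriv f z) 0 := a1.mul a1
  have az : AnalyticAt ℂ (fun z : ℂ => z * deriv (deriv f) z) 0 := analyticAt_id.mul a2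
  have al : AnalyticAt ℂ (fun z : ℂ => deriv f z + z * deriv (deriv f) z) 0 := a1.add az
  have aul : AnalyticAt ℂ (fun z : ℂ => dslope f 0 z * (deriv f z + z * deriv (deriv f) z)) 0 :=
    au.mul al
  have hev : (fun z => gfun α β f z * (dslope f 0 z * deriv f z)) =ᶠ[𝓝 0]
      fun z => ((α : ℂ) * (dslope f 0 z * (dslope f 0 z * deriv f z)) +
      (β : ℂ) * (deriv f z * deriv f z)) +
      (1 - (α : ℂ) - (β : ℂ)) * (dslope f 0 z * (deriv f z + z * deriv (deriv f) z)) := by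
    filter_upwards [isOpen_ball.mem_nhds (show (0 : ℂ) ∈ ball (0 : ℂ) 1 by simp)] with z hz
    exact cleared hf hz
  have h := coeff_congr hev n
  have bα : AnalyticAt ℂ
      (fun z => (α : ℂ) * (dslope f 0 z * (dslope f 0 z * deriv f z))) 0 :=
    analyticAt_const.mul auuf
  have bβ : AnalyticAt ℂ (fun z => (β : ℂ) * (deriv f z * deriv f z)) 0 :=
    analyticAt_const.mul aff
  have bγ : AnalyticAt ℂ (fun z => (1 - (α : ℂ) - (β : ℂ)) *
      (dslope f 0 z * (deriv f z + z * deriv (deriv f) z))) 0 := analyticAt_const.mul aul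
  have bαβ : AnalyticAt ℂ (fun z => (α : ℂ) * (dslope f 0 z * (dslope f 0 z * deriv f z)) +
      (β : ℂ) * (deriv f z * deriv f z)) 0 := bα.add bβ
  have hcuf : ∀ m, coeff m (fun z => dslope f 0 z * deriv f z) =
      ∑ j ∈ Finset.range (m + 1), coeff (j + 1) f * (((m - j : ℕ) : ℂ) + 1) *
        coeff (m - j + 1) f := by
    intro m
    rw [coeff_mul au a1]
    refine Finset.sum_congr rfl fun j hj => ?_
    rw [coeff_dslope hd f0, coeff_deriv]
    ring
  rw [coeff_mul ag auf, coeff_add bαβ bγ, coeff_add bα bβ,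
    coeff_const_mul, coeff_const_mul, coeff_const_mul, coeff_mul au auf, coeff_mul a1 a1,
    coeff_mul au al] at h
  simp only [hcuf, coeff_dslope hd f0, coeff_deriv, coeff_last hd] at h
  rw [h]
  congr 1
  · congr 1
    congr 1
    refine Finset.sum_congr rfl fun i _ => ?_
    ring
  · congr 1
    refine Finset.sum_congr rfl fun i _ => ?_
    ring

lemma coeff_one_f (hf : f ∈ ClassM α β) : coeff 1 f = 1 := by
  have := hf.1.2.2
  simp [coeff, iteratedDeriv_one, this]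

/-- The four coefficient relations. -/
lemma relations (hf : f ∈ ClassM α β) :
    coeff 1 (gfun α β f) = (2 - α - β) * coeff 2 f ∧
    coeff 2 (gfun α β f) = (6 - 5 * α - 4 * β) * coeff 3 f -
      (4 - 4 * α - 3 * β) * coeff 2 f ^ 2 ∧
    coeff 3 (gfun α β f) = (12 - 11 * α - 9 * β) * coeff 4 f -
      (18 - 18 * α - 15 * β) * coeff 2 f * coeff 3 f + (8 - 8 * α - 7 * β) * coeff 2 f ^ 3 ∧
    coeff 4 (gfun α β f) = (20 - 19 * α - 16 * β) * coeff 5 f -
      (18 - 18 * α - 16 * β) * coeff 3 f ^ 2 - (32 - 32 * α - 28 * β) * coeff 2 f * coeff 4 f +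
      (48 - 48 * α - 44 * β) * coeff 2 f ^ 2 * coeff 3 f -
      (16 - 16 * α - 15 * β) * coeff 2 f ^ 4 := by
  have c1 := coeff_one_f hf
  have g0 : coeff 0 (gfun α β f) = 1 := by rw [coeff_zero, gfun_zero]
  have e1 := coeff_identity hf 1
  have e2 := coeff_identity hf 2
  have e3 := coeff_identity hf 3
  have e4 := coeff_identity hf 4
  simp only [Finset.sum_range_succ, Finset.sum_range_zero, Nat.cast_zero, zero_add, Nat.reduceAdd,
    Nat.reduceSub, Nat.sub_self, Nat.sub_zero, c1, g0, Nat.cast_one, Nat.cast_ofNat] at e1 e2 e3 e4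
  have r1 : coeff 1 (gfun α β f) = (2 - α - β) * coeff 2 f := by
    linear_combination e1
  have r2 : coeff 2 (gfun α β f) = (6 - 5 * α - 4 * β) * coeff 3 f -
      (4 - 4 * α - 3 * β) * coeff 2 f ^ 2 := by
    rw [r1] at e2
    linear_combination e2
  have r3 : coeff 3 (gfun α β f) = (12 - 11 * α - 9 * β) * coeff 4 f -
      (18 - 18 * α - 15 * β) * coeff 2 f * coeff 3 f + (8 - 8 * α - 7 * β) * coeff 2 f ^ 3 := by
    rw [r1, r2] at e3
    linear_combination e3
  refine ⟨r1, r2, r3, ?_⟩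
  rw [r1, r2, r3] at e4
  linear_combination e4

end relations

/-! ### The compactness argument -/

/-- third coefficient as a function of the normalized coefficients of `g` -/
noncomputable def A3 (α β : ℝ) (m s : ℂ) : ℂ :=
  ((2 - α - β) * s + (4 - 4 * α - 3 * β) * m ^ 2) / (6 - 5 * α - 4 * β)

/-- fourth coefficient as a function of the normalized coefficients of `g` -/
noncomputable def A4 (α β : ℝ) (m s t : ℂ) : ℂ :=
  ((2 - α - β) * t + (18 - 18 * α - 15 * β) * m * A3 α β m s - (8 - 8 * α - 7 * β) * m ^ 3) /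
    (12 - 11 * α - 9 * β)

/-- the compact set of admissible normalized coefficients -/
def K (α β : ℝ) : Set (ℂ × ℂ × ℂ × ℂ) :=
  {x | ‖x.2.1 - x.1 ^ 2‖ ≤ 1 - ‖x.1‖ ^ 2 ∧ ‖x.2.2.2 - x.2.1 ^ 2‖ ≤ 1 - ‖x.2.1‖ ^ 2 ∧
    ‖x.2.2.1‖ ≤ 1 ∧
    (2 - α - β) * x.2.2.2 = -(18 - 18 * α - 16 * β) * A3 α β x.1 x.2.1 ^ 2 -
      (32 - 32 * α - 28 * β) * x.1 * A4 α β x.1 x.2.1 x.2.2.1 +
      (48 - 48 * α - 44 * β) * x.1 ^ 2 * A3 α β x.1 x.2.1 -
      (16 - 16 * α - 15 * β) * x.1 ^ 4}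

lemma isCompact_K (α β : ℝ) : IsCompact (K α β) := by
  have h1 : Continuous fun x : ℂ × ℂ × ℂ × ℂ => A3 α β x.1 x.2.1 := by
    unfold A3
    fun_prop
  have h2 : Continuous fun x : ℂ × ℂ × ℂ × ℂ => A4 α β x.1 x.2.1 x.2.2.1 := by
    unfold A4
    fun_prop
  have hcl : IsClosed (K α β) := by
    have c1 : IsClosed {x : ℂ × ℂ × ℂ × ℂ | ‖x.2.1 - x.1 ^ 2‖ ≤ 1 - ‖x.1‖ ^ 2} :=
      isClosed_le (by fun_prop) (by fun_prop)
    have c2 : IsClosed {x : ℂ × ℂ × ℂ × ℂ | ‖x.2.2.2 - x.2.1 ^ 2‖ ≤ 1 - ‖x.2.1‖ ^ 2} :=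
      isClosed_le (by fun_prop) (by fun_prop)
    have c3 : IsClosed {x : ℂ × ℂ × ℂ × ℂ | ‖x.2.2.1‖ ≤ 1} :=
      isClosed_le (by fun_prop) (by fun_prop)
    have c4 : IsClosed {x : ℂ × ℂ × ℂ × ℂ | (2 - α - β) * x.2.2.2 =
      -(18 - 18 * α - 16 * β) * A3 α β x.1 x.2.1 ^ 2 -
      (32 - 32 * α - 28 * β) * x.1 * A4 α β x.1 x.2.1 x.2.2.1 +
      (48 - 48 * α - 44 * β) * x.1 ^ 2 * A3 α β x.1 x.2.1 -
      (16 - 16 * α - 15 * β) * x.1 ^ 4} :=
      isClosed_eq (by fun_prop) (by fun_prop)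
    exact c1.inter (c2.inter (c3.inter c4))
  refine (isCompact_closedBall (0 : ℂ × ℂ × ℂ × ℂ) 1).of_isClosed_subset hcl ?_
  rintro ⟨m, s, t, q⟩ ⟨k1, k2, k3, -⟩
  simp only at k1 k2 k3
  have n1 := norm_nonneg (s - m ^ 2)
  have n2 := norm_nonneg (q - s ^ 2)
  have hm : ‖m‖ ≤ 1 := by nlinarith [norm_nonneg m]
  have hs : ‖s‖ ≤ 1 := by nlinarith [norm_nonneg s]
  have hq : ‖q‖ ≤ 1 := by
    have : ‖q‖ ≤ ‖q - s ^ 2‖ + ‖s ^ 2‖ := by
      calc ‖q‖ = ‖(q - s ^ 2) + s ^ 2‖ := by ring_nf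
        _ ≤ _ := norm_add_le _ _
    rw [norm_pow] at this
    linarith
  simp only [mem_closedBall, dist_zero_right, Prod.norm_def, max_le_iff]
  exact ⟨hm, hs, k3, hq⟩

/-- **The Fekete-Szegő bound is not sharp.**  On the segment `19 α + 16 β = 20`, `-4 < α < 4`
(minus three points), which lies in the region `R`, the bound `max (μ, |1 - λ|)` fails to be the
supremum of `|Φ(f, λ)|` over `M_{α,β}` for `λ = 1`. -/
theorem result (α β : ℝ) (hseg : 19 * α + 16 * β = 20) (h1 : -4 < α) (h2 : α < 4)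
    (h3 : α ≠ 12 / 5) (h4 : 2 * α ^ 2 - α - 4 ≠ 0) :
    (α, β) ∈ Region ∧ ∃ lam : ℂ, ∃ c : ℝ, c < max (mu α β) ‖1 - lam‖ ∧
      ∀ f ∈ ClassM α β, ‖Phi f lam‖ ≤ c := by
  have hβ : β = (20 - 19 * α) / 16 := by linarith
  have hd : 0 < 2 - α - β := by rw [hβ]; linarith
  have hD2 : 0 < 6 - 5 * α - 4 * β := by rw [hβ]; linarith
  have hD3 : 12 - 11 * α - 9 * β ≠ 0 := by
    rw [hβ]
    intro h
    apply h3
    linarith
  have hμ : 0 < mu α β := div_pos hd hD2
  refine ⟨⟨by simp only; linarith, by simp only; linarith⟩, 1, ?_⟩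
  have hdc : (2 - α - β : ℂ) ≠ 0 := by
    have : ((2 - α - β : ℝ) : ℂ) ≠ 0 := by exact_mod_cast hd.ne'
    simpa using this
  have hD2c : (6 - 5 * α - 4 * β : ℂ) ≠ 0 := by
    have : ((6 - 5 * α - 4 * β : ℝ) : ℂ) ≠ 0 := by exact_mod_cast hD2.ne'
    simpa using this
  have hD3c : (12 - 11 * α - 9 * β : ℂ) ≠ 0 := by
    have : ((12 - 11 * α - 9 * β : ℝ) : ℂ) ≠ 0 := by exact_mod_cast hD3
    simpa using this
  -- the normalized coefficients of members of the class lie in `K`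
  have hmem : ∀ f ∈ ClassM α β, ∃ x ∈ K α β, ‖Phi f 1‖ = mu α β * ‖x.2.1 - x.1 ^ 2‖ := by
    intro f hf
    obtain ⟨r1, r2, r3, r4⟩ := relations hf
    have hdiff := gfun_diff hf
    have hκ : (α + β) / 2 < 1 := by linarith
    have hre := hf.2.2.2
    have e : (2 * ((1 - (α + β) / 2 : ℝ) : ℂ)) = 2 - α - β := by push_cast; ring
    have c1 := cara hdiff gfun_zero hκ hre (k := 1) one_ne_zero
    have c2 := cara hdiff gfun_zero hκ hre (k := 2) two_ne_zero
    have c3 := cara hdiff gfun_zero hκ hre (k := 3) three_ne_zero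
    rw [e] at c1 c2 c3
    norm_num only at c1 c2
    have g1 : coeff 1 (gfun α β f) / (2 - α - β) = coeff 2 f := by
      rw [r1]; field_simp
    have g2 : A3 α β (coeff 2 f) (coeff 2 (gfun α β f) / (2 - α - β)) = coeff 3 f := by
      rw [A3, mul_div_cancel₀ _ hdc, r2, div_eq_iff hD2c]; ring
    have g3 : A4 α β (coeff 2 f) (coeff 2 (gfun α β f) / (2 - α - β))
        (coeff 3 (gfun α β f) / (2 - α - β)) = coeff 4 f := by
      rw [A4, mul_div_cancel₀ _ hdc, g2, r3, div_eq_iff hD3c]; ring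
    refine ⟨(coeff 2 f, coeff 2 (gfun α β f) / (2 - α - β), coeff 3 (gfun α β f) / (2 - α - β),
      coeff 4 (gfun α β f) / (2 - α - β)), ⟨?_, c2, ?_, ?_⟩, ?_⟩
    · rw [g1] at c1
      exact c1
    · have := le_trans (norm_nonneg _) c3
      simp only
      nlinarith [norm_nonneg (coeff 3 (gfun α β f) / (2 - α - β : ℂ))]
    · simp only [g2, g3]
      rw [mul_div_cancel₀ _ hdc, r4]
      have : (20 - 19 * α - 16 * β : ℂ) = 0 := by
        have h5 : ((20 - 19 * α - 16 * β : ℝ) : ℂ) = 0 := by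
          have : 20 - 19 * α - 16 * β = 0 := by linarith
          rw [this]; simp
        simpa using h5
      rw [this]
      ring
    · simp only
      have e2 : Phi f 1 = (mu α β : ℂ) *
          (coeff 2 (gfun α β f) / (2 - α - β) - coeff 2 f ^ 2) := by
        have hX := mul_div_cancel₀ ((6 - 5 * α - 4 * β) * coeff 3 f -
          (4 - 4 * α - 3 * β) * coeff 2 f ^ 2) hdc
        rw [Phi, r2, mu]
        push_cast
        rw [div_mul_eq_mul_div, eq_div_iff hD2c]
        linear_combination -hX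
      rw [e2, norm_mul, Complex.norm_real, Real.norm_of_nonneg hμ.le]
  rcases (K α β).eq_empty_or_nonempty with hK | hK
  · refine ⟨0, by simp [hμ], fun f hf => ?_⟩
    obtain ⟨x, hx, -⟩ := hmem f hf
    rw [hK] at hx
    exact absurd hx (Set.notMem_empty x)
  · obtain ⟨x0, hx0, hmax⟩ := (isCompact_K α β).exists_isMaxOn hK
      (f := fun x : ℂ × ℂ × ℂ × ℂ => ‖x.2.1 - x.1 ^ 2‖) (by fun_prop)
    refine ⟨mu α β * ‖x0.2.1 - x0.1 ^ 2‖, ?_, fun f hf => ?_⟩
    · have hlt : ‖x0.2.1 - x0.1 ^ 2‖ < 1 := by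
        by_contra hcon
        push Not at hcon
        obtain ⟨m, s, t, q⟩ := x0
        obtain ⟨k1, k2, k3, k4⟩ := hx0
        simp only at k1 k2 k3 k4 hcon
        have hm : m = 0 := by
          have : ‖m‖ ^ 2 ≤ 0 := by linarith
          have : ‖m‖ = 0 := by nlinarith [norm_nonneg m]
          exact norm_eq_zero.mp this
        subst hm
        simp only [ne_eq, OfNat.ofNat_ne_zero, not_false_eq_true, zero_pow, sub_zero] at hcon k1
        have hq0 : ‖q - s ^ 2‖ ≤ 0 := by nlinarith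
        have hq : q = s ^ 2 := sub_eq_zero.mp (norm_le_zero_iff.mp hq0)
        have hs0 : s ≠ 0 := by
          intro h
          rw [h] at hcon
          simp at hcon
          linarith
        rw [hq, A3] at k4
        simp only [ne_eq, OfNat.ofNat_ne_zero, not_false_eq_true, zero_pow, mul_zero, add_zero,
          zero_mul, sub_zero] at k4
        rw [div_pow, mul_div_assoc', eq_div_iff (pow_ne_zero 2 hD2c)] at k4
        have k4' : (2 - α - β : ℂ) * s ^ 2 * ((6 - 5 * α - 4 * β) ^ 2 +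
            (18 - 18 * α - 16 * β) * (2 - α - β)) = 0 := by
          linear_combination k4
        rcases mul_eq_zero.mp k4' with h | k4
        · exact (mul_ne_zero hdc (pow_ne_zero 2 hs0) h).elim
        have k5 : ((6 - 5 * α - 4 * β) ^ 2 + (18 - 18 * α - 16 * β) * (2 - α - β) : ℝ) = 0 := by
          have : (((6 - 5 * α - 4 * β) ^ 2 + (18 - 18 * α - 16 * β) * (2 - α - β) : ℝ) : ℂ) = 0 := by
            push_cast
            exact k4
          exact_mod_cast this
        apply h4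
        rw [hβ] at k5
        nlinarith
      calc mu α β * ‖x0.2.1 - x0.1 ^ 2‖ < mu α β * 1 := mul_lt_mul_of_pos_left hlt hμ
        _ = mu α β := mul_one _
        _ ≤ _ := le_max_left _ _
    · obtain ⟨x, hx, hx2⟩ := hmem f hf
      rw [hx2]
      exact mul_le_mul_of_nonneg_left (hmax hx) hμ.le

end Pool.Agent.Results.MP_dfd3b8_an.NotSharp
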